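import Mathlib
import Pool.Agent.H452.VPP.Main

/-!
# Continuum many varieties of soluble pro-p groups whose free groups have unbounded torsion

The starting result `AllPrimes` gives for every prime `p` one variety of pro-p groups all of whose
free groups of rank at least two contain elements of arbitrarily large finite order. Here: for
every prime `p` there are continuum many such varieties, and all of them consist of soluble groups
of derived length at most `5`. (For metabelian varieties, that is, derived length at most `2`, the
orders of the periodic elements of a free group are bounded by a theorem of Zubkov.)

For a set `A` of natural numbers we use the laws of those groups `K n` of the starting library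
with `n` odd, or `n` even and `n / 2` in `A`. The laws `v n` are independent (`v n` is a law of
`K m` for all `m ≠ n` and not of `K n`), so different sets give different varieties.
-/

set_option autoImplicit false

namespace Pool.Agent.Results.MP_4a8797_al.SolubleVarieties

open Pool.Agent.Helper429.PT

universe u

/-- Every group of the variety `V` is soluble of derived length at most `d`. -/
def SolubleOfLength {p : ℕ} (V : Variety.{u} p) (d : ℕ) : Prop :=
  ∀ (G : Type u) [Group G] [TopologicalSpace G] [IsTopologicalGroup G],
    V.mem G → derivedSeries G d = ⊥

/-- The variety `V` has a free group on every set. -/
def HasFreeGroups {p : ℕ} (V : Variety.{u} p) : Prop :=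
  ∀ X : Type u, ∃ (F : Type u) (_ : Group F) (_ : TopologicalSpace F)
    (_ : IsTopologicalGroup F) (ι : X → F), IsFree V ι

/-- Every free group of `V` on a set with at least two elements (finite or infinite) contains
elements of arbitrarily large finite order. -/
def UnboundedTorsion {p : ℕ} (V : Variety.{u} p) : Prop :=
  ∀ (X F : Type u) [Nontrivial X] [Group F] [TopologicalSpace F] [IsTopologicalGroup F]
    (ι : X → F), IsFree V ι → ∀ N : ℕ, ∃ g : F, IsOfFinOrder g ∧ N < orderOf g

/-- For every prime `p` there are continuum many varieties of pro-p groups (pairwise different
varieties `V A`, one for every set `A` of natural numbers), all of them soluble of derived length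
at most `5`, such that `V A` has a free group on every set `X`, and every free group of `V A` on a
set with at least two elements (finite or infinite) contains elements of arbitrarily large finite
order. -/
theorem result (p : ℕ) (hp : p.Prime) : ∃ V : Set ℕ → Variety.{u} p, Function.Injective V ∧
    ∀ A : Set ℕ, SolubleOfLength (V A) 5 ∧ HasFreeGroups (V A) ∧ UnboundedTorsion (V A) :=
  H452.VPP.family p hp

end Pool.Agent.Results.MP_4a8797_al.SolubleVarieties
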